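import Mathlib
import Pool.Agent.Q262.RL.Key5

/-!
# Salem numbers in fields with a large subfield

Fix a prime number `p` and a power `q` of `p`. Let `F` be a number field (Galois over `ℚ` or not) with
an automorphism `τ` and a set `T` of prime ideals above `p`, such that `x ^ q ≡ τ x` modulo `P` for all
the integers `x` of `F` and all `P` in `T`, and such that the sum of the local degrees of the members
of `T` is at least `[F : ℚ] / B`. We consider the Salem numbers `t` for which an extension `K` of degree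
at most `C` of `ℚ(t)` contains such a field `F` with `[K : F] ≤ C [F : ℚ] ^ κ`. They are larger than
`1 + ε`, where `ε` depends on `p`, `q`, `B`, `C`, `κ` only. If `T` contains all the prime ideals above
`p`, and their ramification indices are at most `E`, then there are only finitely many such Salem
numbers below any bound, for every `κ`; in particular there is a smallest one (if there is one).
-/

set_option autoImplicit false

open NumberField Module Polynomial IntermediateField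

namespace Pool.Agent.Results.MP_9599cf_nt.LargeSubfields

/-- The number field `F` has an automorphism `τ` and a set `T` of prime ideals above `p` with
`x ^ q ≡ τ x` modulo `P` for all the integers `x` of `F` and all `P` in `T`, such that the sum of the
local degrees (products of ramification index and residue degree) of the members of `T` is at least
`[F : ℚ] / B`. (For `B = 1` this means that all the prime ideals above `p` are in `T`.) -/
def HasFrobenius (p q B : ℕ) (F : Type) [Field F] [NumberField F] : Prop :=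
  ∃ (τ : F ≃+* F) (T : Finset (Ideal (𝓞 F))),
    (∀ P ∈ T, P ∈ (Ideal.span {(p : ℤ)}).primesOver (𝓞 F) ∧
      ∀ x : 𝓞 F, x ^ q - RingOfIntegers.mapRingHom (τ : F →+* F) x ∈ P) ∧
    finrank ℚ F ≤ B * ∑ P ∈ T, P.ramificationIdx ℤ * P.inertiaDeg ℤ

/-- All the ramification indices of `F` above `p` are at most `E`. -/
def RamificationAtMost (p E : ℕ) (F : Type) [Field F] [NumberField F] : Prop :=
  ∀ P ∈ (Ideal.span {(p : ℤ)}).primesOver (𝓞 F), P.ramificationIdx ℤ ≤ E

/-- The ramification indices of `F` above `p` are equal up to a factor of at most `B`. -/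
def ComparableRamification (p B : ℕ) (F : Type) [Field F] [NumberField F] : Prop :=
  ∀ P ∈ (Ideal.span {(p : ℤ)}).primesOver (𝓞 F), ∀ Q ∈ (Ideal.span {(p : ℤ)}).primesOver (𝓞 F),
    P.ramificationIdx ℤ ≤ B * Q.ramificationIdx ℤ

/-- The condition on an extension of relative degree `D` of `F`. -/
def IsLarge (p e B C κ : ℕ) (F : Type) [Field F] [NumberField F] (D : ℕ) : Prop :=
  (HasFrobenius p (p ^ e) B F ∧ D ≤ C * finrank ℚ F ^ κ) ∨
  (HasFrobenius p (p ^ e) 1 F ∧ ComparableRamification p B F ∧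
    Real.log (2 * (finrank ℚ F * D)) * Real.exp (√(3 * (e * Real.log p) * Real.log D)) ≤
      C * finrank ℚ F)

/-- `t` is a Salem number. -/
def IsSalem (t : ℝ) : Prop :=
  IsIntegral ℤ t ∧ 1 < t ∧
    (∀ z : ℂ, aeval z (minpoly ℚ t) = 0 → z ≠ (t : ℂ) → ‖z‖ ≤ 1) ∧
    (∃ z : ℂ, aeval z (minpoly ℚ t) = 0 ∧ ‖z‖ = 1)

/-- The number field `K` is an extension of degree at most `C` of a field isomorphic to `ℚ(t)`. -/
def ExtendsField (C : ℕ) (t : ℝ) (K : Type) [Field K] [NumberField K] : Prop :=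
  ∃ x : K, aeval x (minpoly ℚ t) = 0 ∧ finrank ℚ K ≤ C * (minpoly ℚ t).natDegree

/-- `10 p ^ (2 e + 1) E exp (√(3 e log p log D)) / log p` -/
noncomputable def cost (p e E D : ℕ) : ℝ :=
  10 * (p : ℝ) ^ (2 * e + 1) * E * Real.exp (√(3 * (e * Real.log p) * Real.log D)) / Real.log p

/-- The Salem numbers `t` for which an extension `K` of degree at most `C` of `ℚ(t)` contains a number
field `F` with `HasFrobenius p (p ^ e) 1 F`, with ramification indices above `p` at most `E`, and with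
`[K : F] ≤ C [F : ℚ] ^ κ`. -/
def Family (p e E C κ : ℕ) : Set ℝ :=
  {t | IsSalem t ∧ ∃ (F K : Type) (_ : Field F) (_ : NumberField F) (_ : Field K)
    (_ : NumberField K) (_ : Algebra F K), ExtendsField C t K ∧ HasFrobenius p (p ^ e) 1 F ∧
      RamificationAtMost p E F ∧ finrank F K ≤ C * finrank ℚ F ^ κ}

/-- The number of the complex roots of `P` outside the closed unit disc, with multiplicity. -/
noncomputable def rootsOutside (P : ℤ[X]) : ℕ :=
  ((P.map (Int.castRingHom ℂ)).roots.filter fun z => 1 < ‖z‖).card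

/-- The Mahler measure of `P`. -/
noncomputable def mahler (P : ℤ[X]) : ℝ := (P.map (Int.castRingHom ℂ)).mahlerMeasure

lemma eq_minpoly {K : Type} [Field K] [NumberField K] {P : ℤ[X]} (hP : P.Monic) (hI : Irreducible P)
    {x : K} (hx : aeval x P = 0) : P = minpoly ℤ x := by
  have hxi : IsIntegral ℤ x := ⟨P, hP, by rwa [aeval_def] at hx⟩
  have h1 : Irreducible (P.map (algebraMap ℤ ℚ)) :=
    (hP.irreducible_iff_irreducible_map_fraction_map (K := ℚ)).1 hI
  have h2 : P.map (algebraMap ℤ ℚ) = minpoly ℚ x :=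
    minpoly.eq_of_irreducible_of_monic h1 (by rw [aeval_map_algebraMap]; exact hx) (hP.map _)
  rw [minpoly.isIntegrallyClosed_eq_field_fractions' ℚ hxi] at h2
  exact Polynomial.map_injective (algebraMap ℤ ℚ) (algebraMap ℤ ℚ).injective_int h2

/-- The data of a root: the field it generates. -/
lemma setup {K : Type} [Field K] [NumberField K] {P : ℤ[X]} (hP : P.Monic) (hI : Irreducible P)
    {x : K} (hx : aeval x P = 0) : ∃ (y : 𝓞 ℚ⟮x⟯), ((y : ℚ⟮x⟯) : K) = x ∧
      ℚ⟮(y : ℚ⟮x⟯)⟯ = ⊤ ∧ P = minpoly ℤ (y : ℚ⟮x⟯) ∧ finrank ℚ ℚ⟮x⟯ = P.natDegree := by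
  have hxi : IsIntegral ℤ x := ⟨P, hP, by rwa [aeval_def] at hx⟩
  have hxq : IsIntegral ℚ x := hxi.tower_top
  set g : ℚ⟮x⟯ := AdjoinSimple.gen ℚ x with hg
  have hgx : algebraMap ℚ⟮x⟯ K g = x := AdjoinSimple.algebraMap_gen ℚ x
  have hgi : IsIntegral ℤ g := by
    have h1 : IsIntegral ℤ (algebraMap ℚ⟮x⟯ K g) := by rw [hgx]; exact hxi
    exact (isIntegral_algebraMap_iff (algebraMap ℚ⟮x⟯ K).injective).mp h1
  have hg0 : aeval g P = 0 := by
    apply (algebraMap ℚ⟮x⟯ K).injective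
    rw [map_zero, ← aeval_algebraMap_apply, hgx, hx]
  have hPg : P = minpoly ℤ g := eq_minpoly hP hI hg0
  have hdeg : finrank ℚ ℚ⟮x⟯ = P.natDegree := by
    rw [IntermediateField.adjoin.finrank hxq, minpoly.isIntegrallyClosed_eq_field_fractions' ℚ hxi,
      (minpoly.monic hxi).natDegree_map, ← eq_minpoly hP hI hx]
  refine ⟨⟨g, hgi⟩, hgx, ?_, hPg, hdeg⟩
  rw [Field.primitive_element_iff_minpoly_natDegree_eq]
  show (minpoly ℚ g).natDegree = _
  rw [minpoly.isIntegrallyClosed_eq_field_fractions' ℚ hgi, (minpoly.monic hgi).natDegree_map,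
    ← hPg, hdeg]

lemma roots_eq {K : Type} [Field K] [NumberField K] (y : 𝓞 K) (hy : ℚ⟮(y : K)⟯ = ⊤) :
    ((minpoly ℤ (y : K)).map (Int.castRingHom ℂ)).roots =
      (Finset.univ : Finset (K →ₐ[ℚ] ℂ)).val.map fun τ => τ (y : K) := by
  have hc := Pool.Agent.Y399.RD.cinj_of_adjoin hy
  have hα : IsIntegral ℤ (y : K) := y.isIntegral_coe
  have hpmap : (minpoly ℤ (y : K)).map (Int.castRingHom ℂ) =
      ∏ τ : K →ₐ[ℚ] ℂ, (X - C (τ (y : K))) := by
    rw [← Pool.Agent.H388SL.minpoly_map_eq hc,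
      minpoly.isIntegrallyClosed_eq_field_fractions' ℚ hα, Polynomial.map_map]
    rfl
  have h2 := Polynomial.roots_multiset_prod_X_sub_C
    ((Finset.univ : Finset (K →ₐ[ℚ] ℂ)).val.map fun τ => τ (y : K))
  rw [Multiset.map_map] at h2
  rw [hpmap]
  exact h2

lemma card_outside {K : Type} [Field K] [NumberField K] (y : 𝓞 K) (hy : ℚ⟮(y : K)⟯ = ⊤)
    [DecidablePred fun σ : K →+* ℂ => 1 < ‖σ (y : K)‖] :
    (Finset.univ.filter fun σ : K →+* ℂ => 1 < ‖σ (y : K)‖).card ≤
      rootsOutside (minpoly ℤ (y : K)) := by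
  classical
  unfold rootsOutside
  rw [roots_eq y hy, Multiset.filter_map, Multiset.card_map]
  rw [show (Multiset.filter ((fun z : ℂ => 1 < ‖z‖) ∘ fun τ : K →ₐ[ℚ] ℂ => τ (y : K))
    (Finset.univ : Finset (K →ₐ[ℚ] ℂ)).val).card =
    (Finset.univ.filter fun τ : K →ₐ[ℚ] ℂ => 1 < ‖τ (y : K)‖).card by
      simp only [Finset.card_def, Finset.filter_val, Function.comp_def]]
  refine Finset.card_le_card_of_injOn (fun σ => σ.toRatAlgHom) ?_ ?_
  · intro σ hσ
    rw [Finset.mem_coe, Finset.mem_filter] at hσ ⊢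
    exact ⟨Finset.mem_univ _, hσ.2⟩
  · intro σ _ σ' _ h
    ext z
    exact DFunLike.congr_fun h z

/-- The Mahler measure of a polynomial with a large subfield of an extension of its root field. -/
lemma step (s C : ℕ) (μ : ℝ) {K : Type} [Field K] [NumberField K] {P : ℤ[X]}
    (hP : P.Monic) (hI : Irreducible P) (hs : rootsOutside P ≤ s) {x : K} (hx : aeval x P = 0)
    (hC : finrank ℚ K ≤ C * P.natDegree)
    (hkey : ∀ (M : IntermediateField ℚ K) (β : 𝓞 M), finrank M K ≤ s * C → β ≠ 0 →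
      (∀ m : ℕ, 0 < m → β ^ m ≠ 1) → (∀ i : ℕ, 0 < i → ℚ⟮(β : M) ^ i⟯ = ⊤) →
      μ ≤ Real.log ((minpoly ℤ (β : M)).map (Int.castRingHom ℂ)).mahlerMeasure) :
    mahler P = 1 ∨ μ ≤ (s * C : ℕ) * Real.log (mahler P) := by
  classical
  obtain ⟨y, hyx, hytop, hPy, hdeg⟩ := setup hP hI hx
  have hlog : Real.log (mahler P) = Pool.Agent.H388SL.lam (y : ℚ⟮x⟯) := by
    unfold mahler
    rw [hPy]
    exact Pool.Agent.Y399.MG.log_mahler y hytop
  have hM1 : 1 ≤ mahler P := by
    unfold mahler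
    refine Polynomial.one_le_mahlerMeasure_of_ne_zero ?_
    exact hP.ne_zero
  have hpos : 0 < mahler P := one_pos.trans_le hM1
  by_cases h1 : mahler P = 1
  · exact Or.inl h1
  right
  have hlam0 : Pool.Agent.H388SL.lam (y : ℚ⟮x⟯) ≠ 0 := by
    intro h0
    rw [h0] at hlog
    apply h1
    rcases Real.log_eq_zero.1 hlog with h | h | h
    · exact absurd h hpos.ne'
    · exact h
    · linarith
  have hbd : ∀ σ : ℚ⟮x⟯ →ₐ[ℚ] ℂ, ‖σ (y : ℚ⟮x⟯)‖ ≤ mahler P := by
    intro σ
    have h2 : Real.log (max 1 ‖σ (y : ℚ⟮x⟯)‖) ≤ Pool.Agent.H388SL.lam (y : ℚ⟮x⟯) :=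
      Finset.single_le_sum (f := fun σ : ℚ⟮x⟯ →ₐ[ℚ] ℂ => Real.log (max 1 ‖σ (y : ℚ⟮x⟯)‖))
        (fun _ _ => Real.log_nonneg (le_max_left _ _)) (Finset.mem_univ σ)
    rw [← hlog] at h2
    have h3 : (0 : ℝ) < max 1 ‖σ (y : ℚ⟮x⟯)‖ := lt_of_lt_of_le one_pos (le_max_left _ _)
    exact (le_max_right _ _).trans ((Real.log_le_log_iff h3 hpos).1 h2)
  have hx0 : x ≠ 0 := by
    intro h
    apply hlam0
    have h4 : (y : ℚ⟮x⟯) = 0 := by
      apply (algebraMap ℚ⟮x⟯ K).injective
      rw [map_zero]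
      exact hyx.trans h
    unfold Pool.Agent.H388SL.lam
    refine Finset.sum_eq_zero fun σ _ => ?_
    rw [h4, map_zero, norm_zero, max_eq_left zero_le_one, Real.log_one]
  have hroot : ∀ m : ℕ, 0 < m → x ^ m ≠ 1 := by
    intro m hm h
    apply hlam0
    have h4 : (y : ℚ⟮x⟯) ^ m = 1 := by
      apply (algebraMap ℚ⟮x⟯ K).injective
      rw [map_one, map_pow]
      have h5 : algebraMap ℚ⟮x⟯ K (y : ℚ⟮x⟯) = x := hyx
      rw [h5, h]
    unfold Pool.Agent.H388SL.lam
    refine Finset.sum_eq_zero fun σ _ => ?_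
    have h5 : ‖σ (y : ℚ⟮x⟯)‖ ^ m = 1 := by
      rw [← norm_pow, ← map_pow, h4, map_one, norm_one]
    have h6 : ‖σ (y : ℚ⟮x⟯)‖ = 1 := (pow_eq_one_iff_of_nonneg (norm_nonneg _) hm.ne').1 h5
    rw [h6, max_self, Real.log_one]
  have hxi : IsIntegral ℤ x := ⟨P, hP, by rwa [aeval_def] at hx⟩
  have hres : ∀ τ : K →+* ℂ, (τ.comp (algebraMap ℚ⟮x⟯ K)) (y : ℚ⟮x⟯) = τ x := by
    intro τ
    show τ ((y : ℚ⟮x⟯) : K) = τ x
    rw [hyx]
  set S : Finset (ℚ⟮x⟯ →+* ℂ) := Finset.univ.filter fun σ => 1 < ‖σ (y : ℚ⟮x⟯)‖ with hS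
  have hScard : S.card ≤ s := by
    refine (card_outside y hytop).trans ?_
    rw [← hPy]
    exact hs
  have hn : finrank ℚ⟮x⟯ K ≤ C := by
    have hd : 0 < P.natDegree := by rw [← hdeg]; exact finrank_pos
    have h7 : P.natDegree * finrank ℚ⟮x⟯ K ≤ P.natDegree * C := by
      rw [← hdeg, Module.finrank_mul_finrank ℚ ℚ⟮x⟯ K, hdeg, mul_comm P.natDegree C]
      exact hC
    exact Nat.le_of_mul_le_mul_left h7 hd
  obtain ⟨M, β, h1', h2', h3', h4', h5'⟩ := Pool.Agent.Y399.MG.transfer S x s C (mahler P) hx0 hxi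
    hroot hM1 (fun τ hτ => by
      by_contra hcon
      push Not at hcon
      apply hτ
      rw [hS, Finset.mem_filter]
      refine ⟨Finset.mem_univ _, ?_⟩
      rw [hres τ]
      exact hcon)
    (fun τ => by
      rw [← hres τ]
      exact hbd (τ.comp (algebraMap ℚ⟮x⟯ K)).toRatAlgHom) hScard hn
  have h6' : ℚ⟮(β : M)⟯ = ⊤ := by
    have := h4' 1 one_pos
    rwa [pow_one] at this
  have h7' := hkey M β h1' h2' h3' h4'
  rw [Pool.Agent.Y399.MG.log_mahler β h6'] at h7'
  exact h7'.trans h5'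

/-- the minimal polynomial of a Salem number -/
lemma salem_poly {t : ℝ} (h : IsSalem t) : (minpoly ℤ t).Monic ∧ Irreducible (minpoly ℤ t) ∧
    minpoly ℚ t = (minpoly ℤ t).map (algebraMap ℤ ℚ) ∧
    rootsOutside (minpoly ℤ t) ≤ 1 ∧ mahler (minpoly ℤ t) = t := by
  obtain ⟨hi, h1, hout, -⟩ := h
  have hmon : (minpoly ℤ t).Monic := minpoly.monic hi
  have hirr : Irreducible (minpoly ℤ t) := (minpoly.prime_of_isIntegrallyClosed hi).irreducible
  have hmap : minpoly ℚ t = (minpoly ℤ t).map (algebraMap ℤ ℚ) :=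
    minpoly.isIntegrallyClosed_eq_field_fractions' ℚ hi
  have hmapC : (minpoly ℤ t).map (Int.castRingHom ℂ) = (minpoly ℚ t).map (algebraMap ℚ ℂ) := by
    rw [hmap, Polynomial.map_map]
    rfl
  have hne : (minpoly ℤ t).map (Int.castRingHom ℂ) ≠ 0 := (hmon.map _).ne_zero
  set R := ((minpoly ℤ t).map (Int.castRingHom ℂ)).roots with hR
  have hnd : R.Nodup := by
    rw [hR, hmapC]
    apply Polynomial.nodup_roots
    exact (minpoly.irreducible hi.tower_top).separable.map
  have hmem : ∀ z : ℂ, z ∈ R → aeval z (minpoly ℚ t) = 0 := by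
    intro z hz
    rw [hR, mem_roots hne, hmapC, IsRoot.def, eval_map, ← aeval_def] at hz
    exact hz
  have htR : (t : ℂ) ∈ R := by
    rw [hR, mem_roots hne, hmapC, IsRoot.def, eval_map, ← aeval_def]
    have h2 : aeval (algebraMap ℝ ℂ t) (minpoly ℚ t) = algebraMap ℝ ℂ (aeval t (minpoly ℚ t)) :=
      aeval_algebraMap_apply ℂ t _
    rw [minpoly.aeval, map_zero] at h2
    exact h2
  have hle : ∀ z ∈ R.erase (t : ℂ), ‖z‖ ≤ 1 := by
    intro z hz
    rw [hnd.mem_erase_iff] at hz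
    exact hout z (hmem z hz.2) hz.1
  have hnt : ‖(t : ℂ)‖ = t := by
    rw [Complex.norm_real, Real.norm_eq_abs, abs_of_pos (by linarith)]
  refine ⟨hmon, hirr, hmap, ?_, ?_⟩
  · unfold rootsOutside
    rw [← hR, ← Multiset.cons_erase htR, Multiset.filter_cons_of_pos _ (by rw [hnt]; exact h1),
      Multiset.card_cons]
    have : (R.erase (t : ℂ)).filter (fun z => 1 < ‖z‖) = 0 := by
      rw [Multiset.filter_eq_nil]
      intro z hz
      exact not_lt.2 (hle z hz)
    rw [this, Multiset.card_zero]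
  · unfold mahler
    rw [mahlerMeasure_eq_leadingCoeff_mul_prod_roots, (hmon.map _).leadingCoeff, norm_one, one_mul,
      ← hR, ← Multiset.cons_erase htR, Multiset.map_cons, Multiset.prod_cons, hnt,
      max_eq_right h1.le]
    have : (R.erase (t : ℂ)).map (fun a => max 1 ‖a‖) = (R.erase (t : ℂ)).map fun _ => (1 : ℝ) :=
      Multiset.map_congr rfl fun z hz => max_eq_left (hle z hz)
    rw [this, Multiset.map_const', Multiset.prod_replicate, one_pow, mul_one]

lemma natDegree_eq {t : ℝ} (h : IsSalem t) : (minpoly ℚ t).natDegree = (minpoly ℤ t).natDegree := by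
  obtain ⟨hmon, -, hmap, -, -⟩ := salem_poly h
  rw [hmap, hmon.natDegree_map]

lemma root_data {t : ℝ} (h : IsSalem t) {C : ℕ} {K : Type} [Field K] [NumberField K]
    (hK : ExtendsField C t K) :
    ∃ x : K, aeval x (minpoly ℤ t) = 0 ∧ finrank ℚ K ≤ C * (minpoly ℤ t).natDegree := by
  obtain ⟨x, hx, hC⟩ := hK
  refine ⟨x, ?_, by rwa [natDegree_eq h] at hC⟩
  obtain ⟨hmon, -, hmap, -, -⟩ := salem_poly h
  rw [hmap, aeval_map_algebraMap] at hx
  exact hx

/-- the explicit bound -/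
lemma explicit {p e E C : ℕ} (hp : p.Prime) (he : 0 < e) {t : ℝ} (ht : IsSalem t)
    {F K : Type} [Field F] [NumberField F] [Field K] [NumberField K] [Algebra F K]
    (hK : ExtendsField C t K) (hF : HasFrobenius p (p ^ e) 1 F) (hE : RamificationAtMost p E F) :
    (finrank ℚ F : ℝ) ≤ C * cost p e E (finrank F K) * Real.log t := by
  obtain ⟨hP, hI, -, -, hMt⟩ := salem_poly ht
  obtain ⟨x, hx, hC⟩ := root_data ht hK
  set P := minpoly ℤ t with hPdef
  obtain ⟨y, hyx, hytop, hPy, hdeg⟩ := setup hP hI hx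
  have hlog : Real.log (mahler P) = Pool.Agent.H388SL.lam (y : ℚ⟮x⟯) := by
    unfold mahler
    rw [hPy]
    exact Pool.Agent.Y399.MG.log_mahler y hytop
  have hpos : 0 < Real.log (mahler P) := by
    rw [hMt]
    exact Real.log_pos ht.2.1
  have hlam0 : Pool.Agent.H388SL.lam (y : ℚ⟮x⟯) ≠ 0 := by
    rw [← hlog]
    exact hpos.ne'
  have hy0 : y ≠ 0 := by
    intro h
    apply hlam0
    unfold Pool.Agent.H388SL.lam
    refine Finset.sum_eq_zero fun σ _ => ?_
    rw [h]
    simp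
  have hyr : ∀ m : ℕ, 0 < m → y ^ m ≠ 1 := by
    intro m hm h
    apply hlam0
    have h4 : (y : ℚ⟮x⟯) ^ m = 1 := by
      have := congrArg (fun z : 𝓞 ℚ⟮x⟯ => (z : ℚ⟮x⟯)) h
      simpa using this
    unfold Pool.Agent.H388SL.lam
    refine Finset.sum_eq_zero fun σ _ => ?_
    have h5 : ‖σ (y : ℚ⟮x⟯)‖ ^ m = 1 := by
      rw [← norm_pow, ← map_pow, h4, map_one, norm_one]
    have h6 : ‖σ (y : ℚ⟮x⟯)‖ = 1 := (pow_eq_one_iff_of_nonneg (norm_nonneg _) hm.ne').1 h5
    rw [h6, max_self, Real.log_one]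
  have hn : finrank ℚ⟮x⟯ K ≤ C := by
    have hd : 0 < P.natDegree := by rw [← hdeg]; exact finrank_pos
    have h7 : P.natDegree * finrank ℚ⟮x⟯ K ≤ P.natDegree * C := by
      rw [← hdeg, Module.finrank_mul_finrank ℚ ℚ⟮x⟯ K, hdeg, mul_comm P.natDegree C]
      exact hC
    exact Nat.le_of_mul_le_mul_left h7 hd
  have h2 := Pool.Agent.Q262.RL.ram_mahler (F := F) (K := K) hp he
    (Pool.Agent.Q262.RL.all_of_mass hp hF) hE y hy0 hyr hytop
  rw [← hPy] at h2
  change (finrank ℚ F : ℝ) ≤ Pool.Agent.Q262.RL.rcost p e E (finrank F K) *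
    (finrank ℚ⟮x⟯ K * Real.log (mahler P)) at h2
  have hcost : Pool.Agent.Q262.RL.rcost p e E (finrank F K) = cost p e E (finrank F K) := by
    unfold cost Pool.Agent.Q262.RL.rcost
    ring
  have hc0 : 0 ≤ cost p e E (finrank F K) := by
    unfold cost
    have : 0 ≤ Real.log p := Real.log_natCast_nonneg p
    positivity
  rw [hcost] at h2
  rw [← hMt]
  refine h2.trans ?_
  have h13 : (finrank ℚ⟮x⟯ K : ℝ) ≤ C := by exact_mod_cast hn
  calc cost p e E (finrank F K) * (finrank ℚ⟮x⟯ K * Real.log (mahler P))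
      ≤ cost p e E (finrank F K) * (C * Real.log (mahler P)) :=
        mul_le_mul_of_nonneg_left (mul_le_mul_of_nonneg_right h13 hpos.le) hc0
    _ = C * cost p e E (finrank F K) * Real.log (mahler P) := by ring

/-- the elementary estimate: `n ≤ W exp (√(c log D))` and `D ≤ C n ^ κ` bound `n` -/
lemma bound_n (c W : ℝ) (hc : 0 ≤ c) (C κ n D : ℕ) (hn : 0 < n) (hD : 0 < D)
    (hDC : D ≤ C * n ^ κ) (h : (n : ℝ) ≤ W * Real.exp (√(c * Real.log D))) :
    (n : ℝ) ≤ Real.exp (2 * (Real.log W + c * (κ + 1) / 2 + Real.log C)) := by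
  have hn' : (1 : ℝ) ≤ n := by exact_mod_cast hn
  have hn0 : (0 : ℝ) < n := by linarith
  have hW : 0 < W := by
    by_contra hW
    push Not at hW
    have : W * Real.exp (√(c * Real.log D)) ≤ 0 :=
      mul_nonpos_of_nonpos_of_nonneg hW (Real.exp_pos _).le
    linarith
  have hC : 0 < C := by
    rcases Nat.eq_zero_or_pos C with h0 | h0
    · rw [h0, zero_mul] at hDC
      omega
    · exact h0
  have hC' : (1 : ℝ) ≤ C := by exact_mod_cast hC
  have hlogD : Real.log D ≤ Real.log C + κ * Real.log n := by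
    have h1 : (D : ℝ) ≤ C * (n : ℝ) ^ κ := by exact_mod_cast hDC
    have hD0 : (0 : ℝ) < D := by exact_mod_cast hD
    calc Real.log D ≤ Real.log (C * (n : ℝ) ^ κ) := Real.log_le_log hD0 h1
      _ = Real.log C + κ * Real.log n := by
        rw [Real.log_mul (by positivity) (by positivity), Real.log_pow]
  have hD1 : 0 ≤ Real.log D := Real.log_natCast_nonneg D
  have hlC : 0 ≤ Real.log C := Real.log_nonneg hC'
  have hln : 0 ≤ Real.log n := Real.log_nonneg hn'
  have hlog : Real.log n ≤ Real.log W + √(c * Real.log D) := by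
    have h1 := Real.log_le_log hn0 h
    rwa [Real.log_mul hW.ne' (Real.exp_pos _).ne', Real.log_exp] at h1
  have hk : (0 : ℝ) < κ + 1 := by positivity
  have hamgm : √(c * Real.log D) ≤ c * (κ + 1) / 2 + Real.log D / (2 * (κ + 1)) := by
    rw [Real.sqrt_le_left (by positivity)]
    have h3 : (c * (κ + 1) / 2 + Real.log D / (2 * (κ + 1))) ^ 2 - c * Real.log D =
        (c * (κ + 1) / 2 - Real.log D / (2 * (κ + 1))) ^ 2 := by
      field_simp
      ring
    have h4 := sq_nonneg (c * (κ + 1) / 2 - Real.log D / (2 * (κ + 1)))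
    linarith
  have h5 : Real.log D / (2 * (κ + 1)) ≤ Real.log C + Real.log n / 2 := by
    rw [div_le_iff₀ (by positivity)]
    nlinarith [mul_nonneg hlC hk.le, mul_nonneg hln hk.le, mul_nonneg hlC (Nat.cast_nonneg (α := ℝ) κ)]
  have h6 : Real.log n ≤ 2 * (Real.log W + c * (κ + 1) / 2 + Real.log C) := by linarith
  calc (n : ℝ) = Real.exp (Real.log n) := (Real.exp_log hn0).symm
    _ ≤ _ := Real.exp_le_exp.2 h6

lemma family_finite {p e : ℕ} (E C κ : ℕ) (hp : p.Prime) (he : 0 < e) (X : ℝ) :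
    (Family p e E C κ ∩ Set.Iic X).Finite := by
  set W : ℝ := C * (10 * (p : ℝ) ^ (2 * e + 1) * E / Real.log p) * Real.log X with hW
  set c : ℝ := 3 * (e * Real.log p) with hc
  have hlp : 0 ≤ Real.log p := Real.log_natCast_nonneg p
  have hc0 : 0 ≤ c := by positivity
  set Y : ℝ := Real.exp (2 * (Real.log W + c * (κ + 1) / 2 + Real.log C)) with hY
  set N : ℕ := ⌊Y⌋₊ with hN
  have hfin := Polynomial.finite_mahlerMeasure_le (N * (C * N ^ κ)) (Real.toNNReal X)
  refine (hfin.biUnion fun P _ => P.rootSet_finite ℝ).subset ?_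
  rintro t ⟨⟨hS, F, K, _, _, _, _, _, hK, hF, hE, hD⟩, htX⟩
  haveI : FiniteDimensional F K := FiniteDimensional.right ℚ F K
  obtain ⟨hP, hI, -, -, hMt⟩ := salem_poly hS
  obtain ⟨x, hx, hC⟩ := root_data hS hK
  obtain ⟨-, -, -, -, hdeg⟩ := setup hP hI hx
  have ht1 := hS.2.1
  have htX' : t ≤ X := htX
  have hlogX : Real.log t ≤ Real.log X := Real.log_le_log (by linarith) htX'
  have hn0 : 0 < finrank ℚ F := finrank_pos
  have hD0 : 0 < finrank F K := finrank_pos
  have h1 := explicit hp he hS hK hF hE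
  have hcost0 : 0 ≤ cost p e E (finrank F K) := by
    unfold cost
    positivity
  have h2 : (finrank ℚ F : ℝ) ≤ W * Real.exp (√(c * Real.log (finrank F K))) := by
    refine h1.trans ?_
    refine (mul_le_mul_of_nonneg_left hlogX (mul_nonneg (Nat.cast_nonneg _) hcost0)).trans
      (le_of_eq ?_)
    unfold cost
    rw [hW, hc]
    ring
  have h3 := bound_n c W hc0 C κ (finrank ℚ F) (finrank F K) hn0 hD0 hD h2
  have h4 : finrank ℚ F ≤ N := Nat.le_floor h3
  rw [Set.mem_iUnion₂]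
  refine ⟨minpoly ℤ t, ⟨?_, ?_⟩, ?_⟩
  · haveI : FiniteDimensional ℚ⟮x⟯ K := FiniteDimensional.right ℚ ℚ⟮x⟯ K
    have h5 : finrank ℚ ℚ⟮x⟯ ≤ finrank ℚ K := by
      rw [← Module.finrank_mul_finrank ℚ ℚ⟮x⟯ K]
      exact Nat.le_mul_of_pos_right _ finrank_pos
    rw [← hdeg]
    refine h5.trans ?_
    rw [← Module.finrank_mul_finrank ℚ F K]
    refine Nat.mul_le_mul h4 (hD.trans (Nat.mul_le_mul_left _ (Nat.pow_le_pow_left h4 _)))
  · have h6 : ((minpoly ℤ t).map (Int.castRingHom ℂ)).mahlerMeasure = t := hMt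
    rw [h6, Real.coe_toNNReal X (by linarith)]
    exact htX'
  · rw [mem_rootSet]
    exact ⟨hP.ne_zero, minpoly.aeval ℤ t⟩

/-- **Salem numbers in fields with a large subfield.**

1. For every prime number `p`, all `e > 0`, `B`, `C`, `κ` there is `ε > 0` such that `t > 1 + ε` for all
   Salem numbers `t` for which an extension `K` of degree at most `C` of `ℚ(t)` contains a number field
   `F` with `IsLarge p e B C κ F [K : F]`.
2. If `K` is an extension of degree at most `C` of `ℚ(t)`, `t` a Salem number, and `F` a subfield of `K`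
   with `HasFrobenius p (p ^ e) 1 F` and ramification indices above `p` at most `E`, then
   `[F : ℚ] ≤ C cost(p, e, E, [K : F]) log t`.
3. There are only finitely many members of `Family p e E C κ` below any bound, and there is a smallest
   one, if there is one.
4. If there is a set of prime ideals of `F` above `p`, of residue degrees at most `f`, whose local
   degrees have a sum of at least `[F : ℚ] / B`, then `HasFrobenius p (p ^ f !) B F`.
5. If `F` is Galois over `ℚ`, then `ComparableRamification p 1 F`. -/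
theorem result :
    (∀ (p e B C κ : ℕ), p.Prime → 0 < e → ∃ ε : ℝ, 0 < ε ∧ ∀ t : ℝ, IsSalem t →
      ∀ (F K : Type) [Field F] [NumberField F] [Field K] [NumberField K] [Algebra F K],
        ExtendsField C t K → IsLarge p e B C κ F (finrank F K) → 1 + ε < t) ∧
    (∀ (p e E C : ℕ), p.Prime → 0 < e → ∀ t : ℝ, IsSalem t →
      ∀ (F K : Type) [Field F] [NumberField F] [Field K] [NumberField K] [Algebra F K],
        ExtendsField C t K → HasFrobenius p (p ^ e) 1 F → RamificationAtMost p E F →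
        (finrank ℚ F : ℝ) ≤ C * cost p e E (finrank F K) * Real.log t) ∧
    (∀ (p e E C κ : ℕ), p.Prime → 0 < e → (∀ X : ℝ, (Family p e E C κ ∩ Set.Iic X).Finite) ∧
      ((Family p e E C κ).Nonempty → ∃ t, IsLeast (Family p e E C κ) t)) ∧
    (∀ (F : Type) [Field F] [NumberField F] (p f B : ℕ), p.Prime → ∀ T : Finset (Ideal (𝓞 F)),
      (∀ P ∈ T, P ∈ (Ideal.span {(p : ℤ)}).primesOver (𝓞 F) ∧ P.inertiaDeg ℤ ≤ f) →
      finrank ℚ F ≤ B * ∑ P ∈ T, P.ramificationIdx ℤ * P.inertiaDeg ℤ →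
      HasFrobenius p (p ^ f.factorial) B F) ∧
    (∀ (F : Type) [Field F] [NumberField F] (p : ℕ), p.Prime → IsGalois ℚ F →
      ComparableRamification p 1 F) := by
  refine ⟨?_, ?_, ?_, ?_, ?_⟩
  · intro p e B C κ hp he
    obtain ⟨μ1, hμ1, hkey1⟩ := Pool.Agent.Q262.RL.key4 hp he B κ (1 * C) C
    obtain ⟨μ2, hμ2, hkey2⟩ := Pool.Agent.Q262.RL.key2 hp he B (1 * C) (C : ℝ)
    set μ : ℝ := min μ1 μ2 with hμdef
    have hμ : 0 < μ := lt_min hμ1 hμ2
    have hN : (0 : ℝ) < ((1 * C : ℕ) : ℝ) + 1 := by positivity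
    refine ⟨μ / (2 * (((1 * C : ℕ) : ℝ) + 1)), by positivity, ?_⟩
    intro t ht F K _ _ _ _ _ hK hF
    obtain ⟨hP, hI, -, hs, hMt⟩ := salem_poly ht
    obtain ⟨x, hx, hC⟩ := root_data ht hK
    have hpos : 0 < t := by linarith [ht.2.1]
    have hlog0 : 0 ≤ Real.log t := Real.log_nonneg ht.2.1.le
    rcases step 1 C μ hP hI hs hx hC (fun M β h1 h2 h3 h4 => by
        rcases hF with ⟨hF1, hF2⟩ | ⟨hF1, hF2, hF3⟩
        · exact (min_le_left _ _).trans (hkey1 F K M β hF1 hF2 h1 h2 h3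
            fun i => h4 _ (pow_pos hp.pos i))
        · exact (min_le_right _ _).trans (hkey2 F K M β (finrank F K)
            (Pool.Agent.Q262.RL.all_of_mass hp hF1) hF2 le_rfl hF3 h1 h2 h3
            fun i => h4 _ (pow_pos hp.pos i))) with h | h
    · exfalso
      rw [hMt] at h
      linarith [ht.2.1]
    rw [hMt] at h
    have h8 : μ ≤ (((1 * C : ℕ) : ℝ) + 1) * Real.log t := by
      refine h.trans ?_
      exact mul_le_mul_of_nonneg_right (by linarith) hlog0
    have h9 : μ / (((1 * C : ℕ) : ℝ) + 1) ≤ Real.log t := by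
      rw [div_le_iff₀ hN, mul_comm]
      exact h8
    have h10 : μ / (((1 * C : ℕ) : ℝ) + 1) + 1 ≤ t := by
      have h11 := Real.add_one_le_exp (Real.log t)
      rw [Real.exp_log hpos] at h11
      linarith
    have h12 : μ / (2 * (((1 * C : ℕ) : ℝ) + 1)) < μ / (((1 * C : ℕ) : ℝ) + 1) := by
      apply div_lt_div_of_pos_left hμ hN
      linarith
    linarith
  · intro p e E C hp he t ht F K _ _ _ _ _ hK hF hE
    exact explicit hp he ht hK hF hE
  · intro p e E C κ hp he
    refine ⟨family_finite E C κ hp he, ?_⟩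
    rintro ⟨t0, ht0⟩
    obtain ⟨a, ha, hmin⟩ := Set.exists_min_image _ id (family_finite E C κ hp he t0)
      ⟨t0, ht0, le_refl t0⟩
    refine ⟨a, ha.1, ?_⟩
    intro b hb
    rcases le_total b t0 with h | h
    · exact hmin b ⟨hb, h⟩
    · exact ha.2.trans h
  · intro F _ _ p f B hp T hT hN
    exact Pool.Agent.Q262.RL.mass_of_res hp T hT hN
  · intro F _ _ p hp hG P hP Q hQ
    have := hP.1
    have := hP.2
    have := hQ.1
    have := hQ.2
    rw [one_mul]
    exact (Ideal.ramificationIdx_eq_of_isGaloisGroup (Ideal.span {(p : ℤ)}) P Q Gal(F/ℚ)).le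

end Pool.Agent.Results.MP_9599cf_nt.LargeSubfields
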